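import Pool.Agent.V7H80.Berg.Fun
set_option autoImplicit false

/-!
# MP_6e4f46_an: a Bergman inner function in `A²₁` which is not the derivative of a bounded function

The answer to Q1 is negative. We construct real numbers `b_1 = 1, b_2, b_3, …` with
`∑ b_i² < ∞`, with `∑_i 2 i / (i + n + 1) b_i b_(i+n) = 0` for all `n ≥ 1` and with
`F(r) = ∑ b_i r^i → ∞` for `r → 1`. Up to a constant factor `φ = F'` satisfies
`⟨z^n φ, φ⟩ = 0` for `n ≥ 1` and `‖φ‖ = 1`, so `φ` is the Bergman inner function of `X = [φ]`, and its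
primitives are unbounded.

Construction: if only `b_1, …, b_M` have been chosen and the sums above have the values `T_n`, we
append at the places `N + k`, `0 ≤ k ≤ M`, with a huge `N`, the numbers `β = 1 / (j + 1)` (for
`k = 0`) and `- T_n / (2 β)` (for `k = n ≥ 1`). This cancels the sums `T_n` up to terms which are
quadratic in `∑ |T_n|` or `O(1 / N)`; so `∑ |T_n|` tends to zero rapidly, while `∑ β = ∞`.
-/

open MeasureTheory Set Filter Topology Metric Complex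
open scoped ENNReal Real ComplexConjugate InnerProductSpace

namespace Pool.Agent.Results.MP_6e4f46_an.UnboundedPrimitiveH80

/-- The weighted Bergman space `A²₁`: the functions which are holomorphic on the unit disc and
square integrable with respect to `dA₁ = (2 / π) (1 - |z|²) dx dy`. Only the values on the disc
matter. -/
def A21 : Set (ℂ → ℂ) :=
  {f | DifferentiableOn ℂ f (ball 0 1) ∧
    IntegrableOn (fun z : ℂ => 2 / π * (1 - ‖z‖ ^ 2) * ‖f z‖ ^ 2) (ball 0 1)}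

/-- The norm of `A²₁`. -/
noncomputable def nrm (f : ℂ → ℂ) : ℝ :=
  Real.sqrt (∫ z in ball (0:ℂ) 1, 2 / π * (1 - ‖z‖ ^ 2) * ‖f z‖ ^ 2)

/-- `[H]`, the closure in `A²₁` of the functions `H p`, `p` a polynomial. -/
def Gen (H : ℂ → ℂ) : Set (ℂ → ℂ) :=
  {f | f ∈ A21 ∧ ∀ ε : ℝ, 0 < ε → ∃ p : Polynomial ℂ, nrm (fun z => f z - H z * p.eval z) < ε}

/-- `k` is the smallest order of vanishing at `0` among the functions in `X`. -/
def IsOrder (X : Set (ℂ → ℂ)) (k : ℕ) : Prop :=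
  (∃ f ∈ X, iteratedDeriv k f 0 ≠ 0) ∧ ∀ f ∈ X, ∀ j < k, iteratedDeriv j f 0 = 0

/-- `φ` solves the extremal problem `sup {Re f^(k)(0) : f ∈ X, ‖f‖ ≤ 1}`. -/
def IsExtremal (X : Set (ℂ → ℂ)) (k : ℕ) (φ : ℂ → ℂ) : Prop :=
  φ ∈ X ∧ nrm φ ≤ 1 ∧
    ∀ f ∈ X, nrm f ≤ 1 → (iteratedDeriv k f 0).re ≤ (iteratedDeriv k φ 0).re

/-- `φ` is the Bergman inner function of `X`: the unique solution of the extremal problem. -/
def IsInner (X : Set (ℂ → ℂ)) (φ : ℂ → ℂ) : Prop :=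
  ∃ k, IsOrder X k ∧ IsExtremal X k φ ∧
    ∀ ψ, IsExtremal X k ψ → ∀ z ∈ ball (0:ℂ) 1, ψ z = φ z

/-- `g` is, on the disc, the derivative of a bounded holomorphic function. -/
def IsDerivOfBounded (g : ℂ → ℂ) : Prop :=
  ∃ F : ℂ → ℂ, DifferentiableOn ℂ F (ball 0 1) ∧ (∃ C : ℝ, ∀ z ∈ ball (0:ℂ) 1, ‖F z‖ ≤ C) ∧
    ∀ z ∈ ball (0:ℂ) 1, deriv F z = g z

open Pool.Agent.V7H80.Berg

lemma mem_iff {f : ℂ → ℂ} (hd : DifferentiableOn ℂ f (ball 0 1)) : f ∈ A21 ↔ MemLp f 2 mu := by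
  rw [memLp_two_iff_integrable_sq_norm (aesm hd.continuousOn), integrable_mu]
  unfold A21
  simp only [mem_ofPred_eq, W, smul_eq_mul]
  exact ⟨fun h => h.2, fun h => ⟨hd, h⟩⟩

lemma nrm_eq {f : ℂ → ℂ} (h : MemLp f 2 mu) : nrm f = ‖L f‖ := by
  have h1 := norm_L h
  rw [integral_mu] at h1
  unfold nrm
  rw [← Real.sqrt_sq (norm_nonneg (L f)), h1]
  rfl

/-- the reproducing property at zero -/
lemma reproducing {ψ : ℂ → ℂ} (hd : DifferentiableOn ℂ ψ (ball 0 1)) (h2 : MemLp ψ 2 mu)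
    (hn : ‖L ψ‖ = 1) (ho : ∀ n, 1 ≤ n → ⟪L ψ, L (fun z => z ^ n * ψ z)⟫_ℂ = 0) {f : ℂ → ℂ}
    (hf : f ∈ Gen ψ) : f 0 = ψ 0 * ⟪L ψ, L f⟫_ℂ := by
  obtain ⟨hfA, hf⟩ := hf
  have hfd : DifferentiableOn ℂ f (ball 0 1) := hfA.1
  have hf2 : MemLp f 2 mu := (mem_iff hfd).1 hfA
  have hmul : ∀ n : ℕ, MemLp (fun z => z ^ n * ψ z) 2 mu := by
    intro n
    have := memLp_mul h2 hd.continuousOn (continuous_pow n)
    simpa only [mul_comm] using this
  -- polynomial multiples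
  have hp : ∀ p : Polynomial ℂ, MemLp (fun z => ψ z * p.eval z) 2 mu ∧
      ⟪L ψ, L (fun z => ψ z * p.eval z)⟫_ℂ = p.eval 0 := by
    intro p
    refine ⟨memLp_mul h2 hd.continuousOn p.continuous, ?_⟩
    have e1 : (fun z => ψ z * p.eval z) =
        fun z => ∑ n ∈ Finset.range (p.natDegree + 1), p.coeff n * (z ^ n * ψ z) := by
      funext z
      rw [Polynomial.eval_eq_sum_range, Finset.mul_sum]
      exact Finset.sum_congr rfl fun n _ => by ring
    rw [e1, (L_sum (Finset.range (p.natDegree + 1)) (fun n z => p.coeff n * (z ^ n * ψ z))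
      (fun n _ => (hmul n).const_smul (p.coeff n))).2, inner_sum]
    have e2 : ∀ n ∈ Finset.range (p.natDegree + 1),
        ⟪L ψ, L (fun z => p.coeff n * (z ^ n * ψ z))⟫_ℂ = if n = 0 then p.coeff 0 else 0 := by
      intro n _
      rw [L_smul (hmul n), inner_smul_right]
      split_ifs with h
      · subst h
        simp only [pow_zero, one_mul]
        rw [inner_self_eq_norm_sq_to_K, hn]
        simp
      · rw [ho n (by omega), mul_zero]
    rw [Finset.sum_congr rfl e2, Finset.sum_ite_eq' , if_pos (Finset.mem_range.2 (by omega)),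
      Polynomial.coeff_zero_eq_eval_zero]
  rw [← sub_eq_zero, ← norm_le_zero_iff]
  refine le_of_forall_pos_le_add fun ε hε => ?_
  rw [zero_add]
  have hC : 0 < 1 + ‖ψ 0‖ := by positivity
  obtain ⟨p, hpε⟩ := hf (ε / (1 + ‖ψ 0‖)) (by positivity)
  obtain ⟨hp1, hp2⟩ := hp p
  have hsub : MemLp (fun z => f z - ψ z * p.eval z) 2 mu := hf2.sub hp1
  rw [nrm_eq hsub] at hpε
  have hsd : DifferentiableOn ℂ (fun z => f z - ψ z * p.eval z) (ball 0 1) :=
    hfd.sub (hd.mul p.differentiable.differentiableOn)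
  have h3 := norm_eval_zero hsd hsub
  have h4 : f 0 - ψ 0 * ⟪L ψ, L f⟫_ℂ = (f 0 - ψ 0 * p.eval 0) -
      ψ 0 * ⟪L ψ, L (fun z => f z - ψ z * p.eval z)⟫_ℂ := by
    rw [L_sub hf2 hp1, inner_sub_right, hp2]
    ring
  rw [h4]
  refine (norm_sub_le _ _).trans ?_
  have h5 : ‖ψ 0 * ⟪L ψ, L (fun z => f z - ψ z * p.eval z)⟫_ℂ‖ ≤
      ‖ψ 0‖ * ‖L (fun z => f z - ψ z * p.eval z)‖ := by
    rw [norm_mul]
    apply mul_le_mul_of_nonneg_left _ (norm_nonneg _)
    refine (norm_inner_le_norm _ _).trans ?_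
    rw [hn, one_mul]
  have h6 : (1 + ‖ψ 0‖) * ‖L (fun z => f z - ψ z * p.eval z)‖ ≤ ε := by
    rw [lt_div_iff₀ hC] at hpε
    linarith
  nlinarith

/-- equality almost everywhere implies equality on the disc -/
lemma eqOn_of_L_eq {f g : ℂ → ℂ} (hf : DifferentiableOn ℂ f (ball 0 1))
    (hg : DifferentiableOn ℂ g (ball 0 1)) (hf2 : MemLp f 2 mu) (hg2 : MemLp g 2 mu)
    (h : L f = L g) : ∀ z ∈ ball (0:ℂ) 1, f z = g z := by
  have h1 : f =ᵐ[mu] g := by
    have := L_coe hf2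
    rw [h] at this
    exact this.symm.trans (L_coe hg2)
  have h2 : f =ᵐ[volume.restrict (ball (0:ℂ) 1)] g := by
    have h3 : (volume.restrict (ball (0:ℂ) 1)) ≪ mu := by
      unfold mu
      apply withDensity_absolutelyContinuous' (W_cont.measurable.ennreal_ofReal).aemeasurable
      filter_upwards [ae_restrict_mem measurableSet_ball] with z hz
      rw [Ne, ENNReal.ofReal_eq_zero, not_le]
      exact W_pos hz
    exact h3.ae_le h1
  exact fun z hz => Measure.eqOn_open_of_ae_eq h2 isOpen_ball hf.continuousOn hg.continuousOn hz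

/-- **The answer to Q1 is no.** There is a function `H` in `A²₁`, not identically zero, such that the
invariant subspace `[H]` has a Bergman inner function, and this function is not the derivative of a
bounded holomorphic function on the disc. -/
theorem result : ∃ H ∈ A21, (∃ z ∈ ball (0:ℂ) 1, H z ≠ 0) ∧ (∃ φ, IsInner (Gen H) φ) ∧
    ∀ φ, IsInner (Gen H) φ → ¬ IsDerivOfBounded φ := by
  -- the function
  have hph2 : MemLp ph 2 mu := by simpa using memLp_ph 0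
  have hL0 : L ph = Ph 0 := by simpa using L_ph 0
  set c : ℝ := ‖Ph 0‖ with hc
  have hcpos : 0 < c := by
    have := norm_eval_zero ph_diff hph2
    rw [ph_zero, norm_one, hL0] at this
    linarith
  set κ : ℂ := ((1 / c : ℝ) : ℂ) with hκ
  have hκ0 : κ ≠ 0 := by
    rw [hκ]
    exact_mod_cast (by positivity : (1 / c : ℝ) ≠ 0)
  have hκn : ‖κ‖ = 1 / c := by
    rw [hκ, norm_real, Real.norm_of_nonneg (by positivity)]
  set ψ : ℂ → ℂ := fun z => κ * ph z with hψ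
  have hd : DifferentiableOn ℂ ψ (ball 0 1) := ph_diff.const_mul κ
  have h2 : MemLp ψ 2 mu := hph2.const_smul κ
  have hLψ : L ψ = κ • Ph 0 := by rw [hψ, L_smul hph2, hL0]
  have hn : ‖L ψ‖ = 1 := by
    rw [hLψ, norm_smul, hκn, ← hc]
    field_simp
  have ho : ∀ n, 1 ≤ n → ⟪L ψ, L (fun z => z ^ n * ψ z)⟫_ℂ = 0 := by
    intro n hn1
    have e1 : (fun z => z ^ n * ψ z) = fun z => κ * (z ^ n * ph z) := by
      funext z; simp only [hψ]; ring
    rw [e1, L_smul (memLp_ph n), L_ph, hLψ, inner_smul_left, inner_smul_right,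
      ← inner_conj_symm, inner_Ph n hn1]
    simp
  have hψ0 : ψ 0 = κ := by simp only [hψ, ph_zero, mul_one]
  have hψA : ψ ∈ A21 := (mem_iff hd).2 h2
  have hψG : ψ ∈ Gen ψ := by
    refine ⟨hψA, fun ε hε => ⟨1, ?_⟩⟩
    have : (fun z => ψ z - ψ z * (1 : Polynomial ℂ).eval z) = fun _ => 0 := by
      funext z; simp
    rw [this, nrm]
    simpa using hε
  have h0mem : (0:ℂ) ∈ ball (0:ℂ) 1 := by simp
  -- extremality
  have hre : ∀ f ∈ Gen ψ, nrm f ≤ 1 → ‖L f - L ψ‖ ^ 2 ≤ 2 - 2 * (c * (f 0).re) := by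
    intro f hf hf1
    have hf2 : MemLp f 2 mu := (mem_iff hf.1.1).1 hf.1
    rw [nrm_eq hf2] at hf1
    have h3 := reproducing hd h2 hn ho hf
    rw [hψ0] at h3
    have h4 : (⟪L ψ, L f⟫_ℂ).re = c * (f 0).re := by
      rw [h3, hκ, re_ofReal_mul]
      field_simp
    have h5 : (⟪L f, L ψ⟫_ℂ).re = c * (f 0).re := by
      rw [← h4, ← inner_conj_symm, conj_re]
    have h6 := @norm_sub_sq ℂ _ _ _ _ (L f) (L ψ)
    rw [hn] at h6
    have h7 : RCLike.re (⟪L f, L ψ⟫_ℂ) = c * (f 0).re := h5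
    rw [h7] at h6
    nlinarith [norm_nonneg (L f)]
  have hord : IsOrder (Gen ψ) 0 := by
    refine ⟨⟨ψ, hψG, ?_⟩, fun f _ j hj => absurd hj (Nat.not_lt_zero j)⟩
    rw [iteratedDeriv_zero, hψ0]
    exact hκ0
  have hre0 : (ψ 0).re = 1 / c := by rw [hψ0, hκ, ofReal_re]
  have hext : IsExtremal (Gen ψ) 0 ψ := by
    refine ⟨hψG, by rw [nrm_eq h2, hn], fun f hf hf1 => ?_⟩
    rw [iteratedDeriv_zero, iteratedDeriv_zero, hre0, le_div_iff₀ hcpos]
    have := hre f hf hf1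
    nlinarith [sq_nonneg ‖L f - L ψ‖]
  have huniq : ∀ f, IsExtremal (Gen ψ) 0 f → ∀ z ∈ ball (0:ℂ) 1, f z = ψ z := by
    rintro f ⟨hf, hf1, hmax⟩
    have h3 := hmax ψ hψG (by rw [nrm_eq h2, hn])
    rw [iteratedDeriv_zero, iteratedDeriv_zero, hre0, div_le_iff₀ hcpos] at h3
    have h4 := hre f hf hf1
    have h5 : ‖L f - L ψ‖ = 0 := by
      have : ‖L f - L ψ‖ ^ 2 ≤ 0 := by linarith
      exact pow_eq_zero_iff (two_ne_zero) |>.1 (le_antisymm this (sq_nonneg _))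
    have hf2 : MemLp f 2 mu := (mem_iff hf.1.1).1 hf.1
    exact eqOn_of_L_eq hf.1.1 hd hf2 h2 (sub_eq_zero.1 (norm_eq_zero.1 h5))
  refine ⟨ψ, hψA, ⟨0, h0mem, by rw [hψ0]; exact hκ0⟩, ⟨ψ, 0, hord, hext, huniq⟩, ?_⟩
  rintro φ ⟨k, hk, hφ, -⟩ ⟨F, hFd, ⟨C, hC⟩, hF⟩
  have hk0 : k = 0 := by
    by_contra hk0
    have := hk.2 ψ hψG 0 (Nat.pos_of_ne_zero hk0)
    rw [iteratedDeriv_zero, hψ0] at this
    exact hκ0 this
  subst hk0
  have hφψ := huniq φ hφ
  -- the primitives differ by a constant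
  have hconst : ∀ z ∈ ball (0:ℂ) 1, F z - κ * G z = F 0 - κ * G 0 := by
    intro z hz
    have hdiff : DifferentiableOn ℂ (fun z => F z - κ * G z) (ball 0 1) :=
      hFd.sub (G_diff.const_mul κ)
    refine isOpen_ball.is_const_of_deriv_eq_zero (convex_ball (0:ℂ) 1).isPreconnected hdiff ?_ hz h0mem
    intro w hw
    have e1 : DifferentiableAt ℂ F w := hFd.differentiableAt (isOpen_ball.mem_nhds hw)
    have e2 : DifferentiableAt ℂ G w := G_diff.differentiableAt (isOpen_ball.mem_nhds hw)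
    rw [deriv_fun_sub e1 (e2.const_mul κ), deriv_const_mul _ e2, hF w hw, hφψ w hw]
    simp only [hψ, ph, sub_self, Pi.zero_apply]
  obtain ⟨z, hz, hzG⟩ := G_unbounded (c * (C + C + ‖κ * G 0‖) + 1)
  have h3 := hconst z hz
  have h4 : κ * G z = F z - F 0 + κ * G 0 := by linear_combination -h3
  have h5 : ‖κ * G z‖ ≤ C + C + ‖κ * G 0‖ := by
    rw [h4]
    refine (norm_add_le _ _).trans (add_le_add ((norm_sub_le _ _).trans (add_le_add (hC z hz)
      (hC 0 h0mem))) le_rfl)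
  rw [norm_mul, hκn, one_div, inv_mul_le_iff₀ hcpos] at h5
  linarith

end Pool.Agent.Results.MP_6e4f46_an.UnboundedPrimitiveH80
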